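import Pool.Agent.H39.Newt.Stmts

/-!
# Module REC: the scalar recurrence
-/

set_option autoImplicit false

namespace Pool.Newt

open MvPolynomial Pool.Agent.H39.MonoR Pool.Agent.H75.Mono

theorem REC_coeff {I G : Type} [AddCommMonoid G] (P : MvPolynomial I (AddMonoidAlgebra ℚ G)) :
    ∃ (P' : G → MvPolynomial I ℚ) (S : Finset G), (∀ g, g ∉ S → P' g = 0) ∧
      ∀ (t : I → ℕ) (g : G), (eval (fun i => ((t i : ℕ) : AddMonoidAlgebra ℚ G)) P).coeff g =
        eval (fun i => (t i : ℚ)) (P' g) := by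
  classical
  induction P using MvPolynomial.induction_on with
  | C c =>
    refine ⟨fun g => C (c.coeff g), c.coeff.support, fun g hg => ?_, fun t g => ?_⟩
    · show C (c.coeff g) = 0
      rw [Finsupp.notMem_support_iff.1 hg, C_0]
    · rw [eval_C, eval_C]
  | add p q hp hq =>
    obtain ⟨p', S, h1, h2⟩ := hp
    obtain ⟨q', T, h3, h4⟩ := hq
    refine ⟨fun g => p' g + q' g, S ∪ T, fun g hg => ?_, fun t g => ?_⟩
    · rw [Finset.mem_union, not_or] at hg
      show p' g + q' g = 0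
      rw [h1 g hg.1, h3 g hg.2, add_zero]
    · rw [map_add, map_add, ← h2, ← h4]
      rfl
  | mul_X p i hp =>
    obtain ⟨p', S, h1, h2⟩ := hp
    refine ⟨fun g => p' g * X i, S, fun g hg => ?_, fun t g => ?_⟩
    · show p' g * X i = 0
      rw [h1 g hg, zero_mul]
    · rw [map_mul, map_mul, eval_X, eval_X, ← h2, mul_comm, ← nsmul_eq_mul, mul_comm,
        ← nsmul_eq_mul]
      rfl

theorem REC_mul {G : Type} [AddCommGroup G] (x y : AddMonoidAlgebra ℚ G) (S : Finset G)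
    (hS : x.coeff.support ⊆ S) (e : G) :
    (x * y).coeff e = ∑ g ∈ S, x.coeff g * y.coeff (e - g) := by
  classical
  have h1 : x = ∑ g ∈ S, AddMonoidAlgebra.single g (x.coeff g) := by
    conv_lhs => rw [← AddMonoidAlgebra.sum_coeff_single x]
    exact Finsupp.sum_of_support_subset _ hS _ (fun g _ => AddMonoidAlgebra.single_zero g)
  conv_lhs => rw [h1, Finset.sum_mul, AddMonoidAlgebra.coeff_sum, Finsupp.finsetSum_apply]
  refine Finset.sum_congr rfl fun g _ => ?_
  exact AddMonoidAlgebra.coeff_single_mul_eq_mul_coeff (e - g) (fun m' _ =>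
    ⟨fun h => by rw [← h]; abel, fun h => by rw [h]; abel⟩)

theorem REC_multi_fin {I : Type} [Fintype I] (n : ℤ) :
    {x : I → ℤ | (∑ i, x i = n) ∧ multi x ≠ 0}.Finite := by
  classical
  refine (Set.finite_Icc (fun _ : I => (0:ℤ)) (fun _ => n)).subset ?_
  rintro x ⟨h1, h2⟩
  have h3 : ∀ i, 0 ≤ x i := by
    by_contra h
    exact h2 (if_neg h)
  refine ⟨fun i => h3 i, fun i => ?_⟩
  rw [← h1]
  exact Finset.single_le_sum (f := x) (fun j _ => h3 j) (Finset.mem_univ i)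

theorem REC_Eg {σ I : Type} [Fintype σ] [Fintype I] (a : I → σ → ℕ) (y : I → ℤ) (e : Ker a) :
    (Eg a y).coeff e = multi (y + (e : I → ℤ)) := by
  classical
  have hfin : (Function.support fun κ : Ker a =>
      AddMonoidAlgebra.single κ (multi (y + (κ : I → ℤ)))).Finite := by
    have h1 : ((fun κ : Ker a => y + (κ : I → ℤ)) ⁻¹'
        {x : I → ℤ | (∑ i, x i = ∑ i, y i) ∧ multi x ≠ 0}).Finite :=
      (REC_multi_fin _).preimage (fun κ _ κ' _ h => Subtype.ext (add_left_cancel h))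
    refine h1.subset fun κ hκ => ⟨?_, fun h => hκ ?_⟩
    · have h2 : ∑ i, (κ : I → ℤ) i = 0 := κ.2.1
      simp only [Pi.add_apply, Finset.sum_add_distrib, h2, add_zero]
    · show AddMonoidAlgebra.single κ (multi (y + (κ : I → ℤ))) = 0
      rw [h, AddMonoidAlgebra.single_zero]
  unfold Eg
  rw [finsum_eq_sum_of_support_subset _ (s := insert e hfin.toFinset) (by
    intro κ hκ
    exact Finset.mem_coe.2 (Finset.mem_insert_of_mem (hfin.mem_toFinset.2 hκ)))]
  rw [AddMonoidAlgebra.coeff_sum, Finsupp.finsetSum_apply, Finset.sum_eq_single e]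
  · rw [AddMonoidAlgebra.coeff_single, Finsupp.single_eq_same]
  · intro κ _ hne
    rw [AddMonoidAlgebra.coeff_single, Finsupp.single_eq_of_ne hne.symm]
  · intro h
    exact absurd (Finset.mem_insert_self _ _) h

theorem REC_dd {σ I : Type} [Fintype σ] [Fintype I] (a : I → σ → ℕ) (δ : I → ℤ) (κ : Ker a) :
    dd a (δ + (κ : I → ℤ)) = dd a δ := by
  unfold dd
  refine Finset.prod_congr rfl fun l _ => ?_
  have h : ∑ i, (δ + (κ : I → ℤ)) i * (a i l : ℤ) = ∑ i, δ i * (a i l : ℤ) := by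
    have h2 : ∑ i, (κ : I → ℤ) i * (a i l : ℤ) = 0 := κ.2.2 l
    simp only [Pi.add_apply, add_mul, Finset.sum_add_distrib, h2, add_zero]
  rw [h]

theorem REC_alg {G : Type} [AddCommMonoid G] (c : ℚ) (x : AddMonoidAlgebra ℚ G) (g : G) :
    (algebraMap ℚ (AddMonoidAlgebra ℚ G) c * x).coeff g = c * x.coeff g := by
  rw [← Algebra.smul_def]
  rfl

theorem sRec (hPhi : SPhi) : SRec := by
  classical
  intro σ I _ _ a s α K hs hR
  obtain ⟨q, H, Dd, Q, hq, hDd, hid⟩ := hR
  obtain ⟨H', SH, hSH, hH'⟩ := REC_coeff H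
  choose Q' SQ hSQ hQ' using fun δ => REC_coeff (Q δ)
  -- the functional
  obtain ⟨φ, φ0, φ1, φE⟩ := hPhi I s
    (((q.coeff.support ×ˢ q.coeff.support).filter (fun p => p.1 ≠ p.2)).image
      (fun p => ((p.1 - p.2 : Ker a) : I → ℤ))) (by
    intro κ hκ
    obtain ⟨p, hp, rfl⟩ := Finset.mem_image.1 hκ
    by_contra hno
    push Not at hno
    have h1 := hs _ (p.1 - p.2 : Ker a).2 hno
    exact (Finset.mem_filter.1 hp).2 (sub_eq_zero.1 (Subtype.ext h1)))
  have hne : q.coeff.support.Nonempty := by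
    rw [Finsupp.support_nonempty_iff]
    intro h
    exact hq (AddMonoidAlgebra.coeff_injective h)
  obtain ⟨e0, he0, hmin⟩ := Finset.exists_min_image q.coeff.support
    (fun g : Ker a => ∑ i, (φ i : ℤ) * (g : I → ℤ) i) hne
  set S1 : Finset (Ker a) := q.coeff.support ∪ SH with hS1
  set S2 : Finset (Ker a) := Dd.biUnion SQ with hS2
  set r : (I → ℤ) → ℚ := fun κ => if h : κ ∈ Ker a then q.coeff (e0 - ⟨κ, h⟩) else 0 with hr
  set G : (I → ℤ) → MvPolynomial I ℚ := fun κ => if h : κ ∈ Ker a then H' (e0 - ⟨κ, h⟩) else 0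
    with hG
  have hr' : ∀ g : Ker a, r ((e0 - g : Ker a) : I → ℤ) = q.coeff g := by
    intro g
    have h1 : r ((e0 - g : Ker a) : I → ℤ) = q.coeff (e0 - (e0 - g)) := dif_pos (e0 - g).2
    rw [h1, sub_sub_cancel]
  have hG' : ∀ g : Ker a, G ((e0 - g : Ker a) : I → ℤ) = H' g := by
    intro g
    have h1 : G ((e0 - g : Ker a) : I → ℤ) = H' (e0 - (e0 - g)) := dif_pos (e0 - g).2
    rw [h1, sub_sub_cancel]
  set Dk : Finset (I → ℤ) := S1.image (fun g => ((e0 - g : Ker a) : I → ℤ)) with hDk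
  set pairs : Finset ((I → ℤ) × Ker a) := Dd ×ˢ S2 with hpairs
  set f : (I → ℤ) × Ker a → (I → ℤ) := fun p => p.1 + ((e0 - p.2 : Ker a) : I → ℤ) with hf
  set q' : (I → ℤ) → MvPolynomial I ℚ := fun δ' =>
    ∑ p ∈ pairs.filter (fun p => f p = δ'), Q' p.1 p.2 with hq'
  refine ⟨{ φ := φ, φ0 := φ0, φ1 := φ1, Dk := Dk, hDk := ?_, r := r, G := G, zm := ?_, r0 := ?_,
            hr := ?_, Dd := pairs.image f, hDd := ?_, q := q', rc := ?_ }⟩
  · intro κ hκ
    obtain ⟨g, -, rfl⟩ := Finset.mem_image.1 hκ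
    exact (e0 - g).2
  · refine Finset.mem_image.2 ⟨e0, Finset.mem_union_left _ he0, ?_⟩
    rw [sub_self]
    rfl
  · have h1 := hr' e0
    rw [sub_self] at h1
    have h2 : r 0 = q.coeff e0 := h1
    rw [h2]
    exact Finsupp.mem_support_iff.1 he0
  · intro κ hκ hκ0 hrκ
    obtain ⟨g, -, rfl⟩ := Finset.mem_image.1 hκ
    rw [hr'] at hrκ
    have hg : g ∈ q.coeff.support := Finsupp.mem_support_iff.2 hrκ
    have hne : e0 ≠ g := fun h => hκ0 (by rw [h, sub_self]; rfl)
    have h1 := hmin g hg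
    have h2 := φE _ (Finset.mem_image.2 ⟨(e0, g), Finset.mem_filter.2
      ⟨Finset.mem_product.2 ⟨he0, hg⟩, hne⟩, rfl⟩)
    have h3 : ∑ i, (φ i : ℤ) * ((e0 - g : Ker a) : I → ℤ) i =
        ∑ i, (φ i : ℤ) * (e0 : I → ℤ) i - ∑ i, (φ i : ℤ) * (g : I → ℤ) i := by
      rw [← Finset.sum_sub_distrib]
      exact Finset.sum_congr rfl fun i _ => mul_sub _ _ _
    have h4 : ∑ i, (φ i : ℤ) * ((e0 - g : Ker a) : I → ℤ) i ≠ 0 := h2
    rw [h3] at h4 ⊢
    have h5 : ∑ i, (φ i : ℤ) * (e0 : I → ℤ) i ≤ ∑ i, (φ i : ℤ) * (g : I → ℤ) i := h1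
    omega
  · intro δ' hδ'
    obtain ⟨p, hp, rfl⟩ := Finset.mem_image.1 hδ'
    have h1 := hDd p.1 (Finset.mem_product.1 hp).1
    have h2 : ∑ i, ((e0 - p.2 : Ker a) : I → ℤ) i = 0 := (e0 - p.2).2.1
    show ∑ i, (p.1 + ((e0 - p.2 : Ker a) : I → ℤ)) i = 1
    simp only [Pi.add_apply, Finset.sum_add_distrib, h1, h2, add_zero]
  · intro t
    have h1 := DFunLike.congr_fun (congrArg AddMonoidAlgebra.coeff (hid t)) e0
    rw [REC_mul _ _ S1 (by
      intro g hg
      by_contra hno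
      rw [hS1, Finset.mem_union, not_or] at hno
      refine Finsupp.mem_support_iff.1 hg ?_
      rw [AddMonoidAlgebra.coeff_add, Finsupp.add_apply, REC_alg, hH' t g, hSH g hno.2,
        Finsupp.notMem_support_iff.1 hno.1]
      simp)] at h1
    have hL : ∑ κ ∈ Dk, (r κ + ((∑ i, (t i : ℚ)) - α) ^ K * eval (fun i => (t i : ℚ)) (G κ)) *
        multi (fun i => (t i : ℤ) + κ i) = ∑ g ∈ S1, (q + algebraMap ℚ
          (AddMonoidAlgebra ℚ (Ker a)) (((∑ i, (t i : ℚ)) - α) ^ K) * eval (fun i => ((t i : ℕ) :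
            AddMonoidAlgebra ℚ (Ker a))) H).coeff g * (Eg a fun i => (t i : ℤ)).coeff (e0 - g) := by
      rw [hDk, Finset.sum_image (fun g _ g' _ h => by
        have h2 : (e0 - g : Ker a) = e0 - g' := Subtype.ext h
        exact sub_right_injective h2)]
      refine Finset.sum_congr rfl fun g _ => ?_
      rw [hr', hG', REC_Eg, AddMonoidAlgebra.coeff_add, Finsupp.add_apply, REC_alg, hH' t g]
      rfl
    rw [hL, h1, AddMonoidAlgebra.coeff_sum, Finsupp.finsetSum_apply]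
    have hRr : ∀ δ ∈ Dd, (algebraMap ℚ (AddMonoidAlgebra ℚ (Ker a)) (eval (fun i => (t i : ℚ))
        (dd a δ)) * eval (fun i => ((t i : ℕ) : AddMonoidAlgebra ℚ (Ker a))) (Q δ) *
          Eg a (fun i => (t i : ℤ) + δ i)).coeff e0 = ∑ g ∈ S2,
        eval (fun i => (t i : ℚ)) (dd a δ) * eval (fun i => (t i : ℚ)) (Q' δ g) *
          multi (fun i => (t i : ℤ) + f (δ, g) i) := by
      intro δ hδ
      rw [REC_mul _ _ S2 (by
        intro g hg
        by_contra hno
        refine Finsupp.mem_support_iff.1 hg ?_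
        rw [REC_alg, hQ' δ t g, hSQ δ g (fun h => hno (Finset.mem_biUnion.2 ⟨δ, hδ, h⟩))]
        simp)]
      refine Finset.sum_congr rfl fun g _ => ?_
      rw [REC_alg, hQ' δ t g, REC_Eg]
      congr 2
      funext i
      simp only [Pi.add_apply, hf]
      ring
    rw [Finset.sum_congr rfl hRr, ← Finset.sum_product (s := Dd) (t := S2) (f := fun p =>
      eval (fun i => (t i : ℚ)) (dd a p.1) * eval (fun i => (t i : ℚ)) (Q' p.1 p.2) *
          multi (fun i => (t i : ℤ) + f (p.1, p.2) i)),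
      ← Finset.sum_fiberwise_of_maps_to (s := pairs) (t := pairs.image f) (g := f)
        (fun p hp => Finset.mem_image_of_mem f hp)]
    refine Finset.sum_congr rfl fun δ' _ => ?_
    rw [hq', map_mul, map_sum, Finset.mul_sum, Finset.sum_mul]
    refine Finset.sum_congr rfl fun p hp => ?_
    obtain ⟨-, rfl⟩ := Finset.mem_filter.1 hp
    have h6 : dd a (f p) = dd a p.1 := REC_dd a p.1 (e0 - p.2)
    rw [h6]

end Pool.Newt
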